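import Pool.Agent.H8.AV3.Stmts

/-! # Three-descent over `F(t)`: module NFX -/

set_option autoImplicit false

namespace Pool.Agent.H58.AV3

open Pool.AV3

/-- NFX -/
theorem nfx_thm : NFXStmt := by
  intro K _ _ a b x y κ v h
  have key : ∀ s : K, -(v 2) * s ^ 2 + (v 0 ^ 2 - 2 * v 1 * v 2 - (x + a) * v 2 ^ 2) * s +
      (v 0 ^ 2 * v 1 - x * v 0 ^ 2 * v 2 - 2 * y * v 0 * v 2 ^ 2 - v 1 ^ 2 * v 2 -
        (x + a) * v 1 * v 2 ^ 2 - (x ^ 2 + a * x + b) * v 2 ^ 3 - κ) = 0 := by
    intro s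
    have h1 := h s 1
    simp only [tev, FP, e1, Pi.add_apply, Pi.smul_apply, smul_eq_mul, one_mul, Matrix.cons_val_zero,
      Matrix.cons_val_one, Matrix.cons_val, one_pow, mul_one, mul_zero, zero_add, zero_mul,
      add_zero] at h1
    linear_combination h1
  have k0 := key 0
  have k1 := key 1
  classical
  obtain ⟨s, hs⟩ := Infinite.exists_notMem_finset ({0, 1} : Finset K)
  have hs0 : s ≠ 0 := fun h0 => hs (by simp [h0])
  have hs1 : s ≠ 1 := fun h0 => hs (by simp [h0])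
  have k2 := key s
  have h2 : v 2 * (s * (1 - s)) = 0 := by
    linear_combination k2 - s * k1 + (s - 1) * k0
  have hv2 : v 2 = 0 := by
    rcases mul_eq_zero.mp h2 with h3 | h3
    · exact h3
    · rcases mul_eq_zero.mp h3 with h4 | h4
      · exact absurd h4 hs0
      · exact absurd (sub_eq_zero.mp h4).symm hs1
  have hv0 : v 0 ^ 2 = 0 := by
    rw [hv2] at k0 k1
    linear_combination k1 - k0
  exact ⟨by simpa using hv0, hv2⟩

end Pool.Agent.H58.AV3
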